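import Pool.Agent.Lib_helper60.MonPH.Maj
import Pool.Agent.Lib_helper60.MonPH.PS5
import Pool.Agent.Lib_helper60.MonPP.Majority

/-!
# The monadic case of `PP ≠ PSPACE`, at every level of the hierarchy

Fagin: NP is the class of properties of finite structures 'there are relations `S` with `φ`',
`φ` first-order; coNP, PP and the levels of the polynomial hierarchy have the analogous
descriptions with the quantifiers 'for all relations', 'more relations satisfy `φ` than `ψ`',
and alternating blocks of relation quantifiers; PSPACE is reachability between tuples of
relations in a first-order definable graph (Harel-Peleg, Immerman). Here all quantified relations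
are sets (the monadic case). `MonPPAlt j` is monadic PP over level `j` of the monadic hierarchy
(the monadic version of PP with a `Σ_j` oracle); `MonPPAlt 0` is monadic PP.
-/

namespace Pool.Agent.Lib_helper60.Retired.MonadicPP

open Pool.Agent.Lib_helper60.MonPP Pool.Agent.Lib_helper60.MonPH

/-- The monadic case of `PP ≠ PSPACE`, at every level of the hierarchy: the inclusion of monadic PP
over level `j` in monadic PSPACE (with a built-in linear order) is proper. The witness is a monadic
`Σ_{j+2}` property, it is not even in the Boolean closure of monadic PP over level `j`, with or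
without a linear order, and `j + 2` is optimal: monadic `Σ_{j+1}` and `Π_{j+1}` are contained in
monadic PP over level `j`. -/
theorem result (j : ℕ) :
    (∀ (U B : Type) (K : Prty U B), MonSigma (j + 1) K ∨ MonPi (j + 1) K → MonPPAlt j K) ∧
    (∀ (U B : Type) (K : Prty U B), MonPPAlt j K → WithOrder MonPSPACE K) ∧
    (∃ K : Prty (Fin 5) (Fin 2), MonSigma (j + 2) K ∧ WithOrder MonPSPACE K ∧
      ¬ BoolCl (MonPPAlt j) K ∧ ¬ WithOrder (BoolCl (MonPPAlt j)) K) := by
  refine ⟨?_, fun U B K hK => ppAlt_withOrder_PSPACE (ppAlt_withOrder hK), ?_⟩
  · rintro U B K (hK | hK)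
    · exact monSigma_ppAlt hK
    · exact monPi_ppAlt hK
  · obtain ⟨K, h1, h2, h3⟩ := sigma_not_boolCl j
    exact ⟨K, h1, MSO_withOrder_PSPACE (MSO_withOrder (monSigma_MSO h1)), h2, h3⟩

end Pool.Agent.Lib_helper60.Retired.MonadicPP
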